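import Mathlib

/-!
# The finite inequality behind the Weyl energy theorem in dimension six

`l i` are the eigenvalues of the Jacobi operator at a unit vector of an Einstein curvature tensor
(`Ric = 5`) in dimension six, `K i j` the sectional curvatures of the planes spanned by the
eigenvectors; all are at most `k`.
-/

set_option autoImplicit false

open scoped BigOperators

namespace Pool.Agent.Q188.Ein

/-- Newton's inequality `2 e₁ e₃ ≤ e₂²` for five real numbers. -/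
theorem newton5 (a b c d e : ℝ) :
    2 * ((a + b + c + d + e) * (a * b * c + a * b * d + a * b * e + a * c * d + a * c * e
      + a * d * e + b * c * d + b * c * e + b * d * e + c * d * e)) ≤
    (a * b + a * c + a * d + a * e + b * c + b * d + b * e + c * d + c * e + d * e) ^ 2 := by
  nlinarith [sq_nonneg (a * b - c * d), sq_nonneg (a * c - b * d), sq_nonneg (a * d - b * c),
    sq_nonneg (a * b - c * e), sq_nonneg (a * c - b * e), sq_nonneg (a * e - b * c),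
    sq_nonneg (a * b - d * e), sq_nonneg (a * d - b * e), sq_nonneg (a * e - b * d),
    sq_nonneg (a * c - d * e), sq_nonneg (a * d - c * e), sq_nonneg (a * e - c * d),
    sq_nonneg (b * c - d * e), sq_nonneg (b * d - c * e), sq_nonneg (b * e - c * d)]

/-- Maclaurin's inequality `e₂ ≤ (2/5) e₁²` for five real numbers. -/
theorem maclaurin5 (a b c d e : ℝ) :
    a * b + a * c + a * d + a * e + b * c + b * d + b * e + c * d + c * e + d * e ≤
      2 / 5 * (a + b + c + d + e) ^ 2 := by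
  nlinarith [sq_nonneg (a - b), sq_nonneg (a - c), sq_nonneg (a - d), sq_nonneg (a - e),
    sq_nonneg (b - c), sq_nonneg (b - d), sq_nonneg (b - e), sq_nonneg (c - d),
    sq_nonneg (c - e), sq_nonneg (d - e)]

/-- The weighted inequality for the ten sectional curvatures. -/
theorem weight (s a b c d e : ℝ) (vab vac vad vae vbc vbd vbe vcd vce vde : ℝ)
    (ha : 0 ≤ a) (hb : 0 ≤ b) (hc : 0 ≤ c) (hd : 0 ≤ d) (he : 0 ≤ e)
    (h1 : 0 ≤ vab) (h2 : 0 ≤ vac) (h3 : 0 ≤ vad) (h4 : 0 ≤ vae) (h5 : 0 ≤ vbc) (h6 : 0 ≤ vbd)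
    (h7 : 0 ≤ vbe) (h8 : 0 ≤ vcd) (h9 : 0 ≤ vce) (h10 : 0 ≤ vde)
    (ra : vab + vac + vad + vae = s - a) (rb : vab + vbc + vbd + vbe = s - b)
    (rc : vac + vbc + vcd + vce = s - c) (rd : vad + vbd + vcd + vde = s - d)
    (re : vae + vbe + vce + vde = s - e) (hs : a + b + c + d + e = s) :
    0 ≤ 11 / 5 * s * (a * b + a * c + a * d + a * e + b * c + b * d + b * e + c * d + c * e
        + d * e)
      - 15 * (a * b * c + a * b * d + a * b * e + a * c * d + a * c * e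
        + a * d * e + b * c * d + b * c * e + b * d * e + c * d * e)
      + 4 * (a * b * vab + a * c * vac + a * d * vad + a * e * vae + b * c * vbc + b * d * vbd
        + b * e * vbe + c * d * vcd + c * e * vce + d * e * vde) := by
  have hs0 : 0 ≤ s := by rw [← hs]; positivity
  rcases hs0.eq_or_lt with h0 | h0
  · have ea : a = 0 := by linarith
    have eb : b = 0 := by linarith
    have ec : c = 0 := by linarith
    have ed : d = 0 := by linarith
    have ee : e = 0 := by linarith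
    subst ea eb ec ed ee
    simp
  set E2 := a * b + a * c + a * d + a * e + b * c + b * d + b * e + c * d + c * e + d * e with hE2
  set E3 := a * b * c + a * b * d + a * b * e + a * c * d + a * c * e
        + a * d * e + b * c * d + b * c * e + b * d * e + c * d * e with hE3
  set U := a * b * vab + a * c * vac + a * d * vad + a * e * vae + b * c * vbc + b * d * vbd
        + b * e * vbe + c * d * vcd + c * e * vce + d * e * vde with hU
  have hN : 2 * (s * E3) ≤ E2 ^ 2 := by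
    have := newton5 a b c d e
    rw [hs] at this
    exact this
  have hM : E2 ≤ 2 / 5 * s ^ 2 := by
    have := maclaurin5 a b c d e
    rw [hs] at this
    exact this
  have hE20 : 0 ≤ E2 := by rw [hE2]; positivity
  -- the certificate for `U`
  have hcert : ∀ t : ℝ, 0 ≤ s * E2 - 3 * E3 + 2 * U - 8 * t * E2 + 8 * t ^ 2 * s := by
    intro t
    have h : 0 ≤ vab * (a + b - 2 * t) ^ 2 + vac * (a + c - 2 * t) ^ 2
        + vad * (a + d - 2 * t) ^ 2 + vae * (a + e - 2 * t) ^ 2 + vbc * (b + c - 2 * t) ^ 2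
        + vbd * (b + d - 2 * t) ^ 2 + vbe * (b + e - 2 * t) ^ 2 + vcd * (c + d - 2 * t) ^ 2
        + vce * (c + e - 2 * t) ^ 2 + vde * (d + e - 2 * t) ^ 2 := by positivity
    have e1 : vab * (a + b - 2 * t) ^ 2 + vac * (a + c - 2 * t) ^ 2
        + vad * (a + d - 2 * t) ^ 2 + vae * (a + e - 2 * t) ^ 2 + vbc * (b + c - 2 * t) ^ 2
        + vbd * (b + d - 2 * t) ^ 2 + vbe * (b + e - 2 * t) ^ 2 + vcd * (c + d - 2 * t) ^ 2
        + vce * (c + e - 2 * t) ^ 2 + vde * (d + e - 2 * t) ^ 2 =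
        s * E2 - 3 * E3 + 2 * U - 8 * t * E2 + 8 * t ^ 2 * s := by
      rw [hE2, hE3, hU, ← hs]
      rw [← hs] at ra rb rc rd re
      linear_combination (a ^ 2 - 4 * t * a + 2 * t ^ 2) * ra
        + (b ^ 2 - 4 * t * b + 2 * t ^ 2) * rb + (c ^ 2 - 4 * t * c + 2 * t ^ 2) * rc
        + (d ^ 2 - 4 * t * d + 2 * t ^ 2) * rd + (e ^ 2 - 4 * t * e + 2 * t ^ 2) * re
    rw [← e1]; exact h
  have hc1 := hcert (E2 / (2 * s))
  have e2 : s * E2 - 3 * E3 + 2 * U - 8 * (E2 / (2 * s)) * E2 + 8 * (E2 / (2 * s)) ^ 2 * s =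
      (s ^ 2 * E2 - 3 * (s * E3) + 2 * (s * U) - 2 * E2 ^ 2) / s := by
    field_simp
    ring
  rw [e2] at hc1
  have hc2 : 0 ≤ s ^ 2 * E2 - 3 * (s * E3) + 2 * (s * U) - 2 * E2 ^ 2 := by
    have := mul_nonneg hc1 h0.le
    rwa [div_mul_cancel₀ _ h0.ne'] at this
  have h1' : 0 ≤ E2 * (2 / 5 * s ^ 2 - E2) := mul_nonneg hE20 (by linarith)
  have hid : s * (11 / 5 * s * E2 - 15 * E3 + 4 * U) =
      2 * (s ^ 2 * E2 - 3 * (s * E3) + 2 * (s * U) - 2 * E2 ^ 2) + 9 / 2 * (E2 ^ 2 - 2 * (s * E3))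
        + 1 / 2 * (E2 * (2 / 5 * s ^ 2 - E2)) := by ring
  have key : 0 ≤ s * (11 / 5 * s * E2 - 15 * E3 + 4 * U) := by
    rw [hid]
    have h2' : 0 ≤ E2 ^ 2 - 2 * (s * E3) := sub_nonneg.2 hN
    have h3' := mul_nonneg (by norm_num : (0 : ℝ) ≤ 2) hc2
    have h4' := mul_nonneg (by norm_num : (0 : ℝ) ≤ 9 / 2) h2'
    have h5' := mul_nonneg (by norm_num : (0 : ℝ) ≤ 1 / 2) h1'
    exact add_nonneg (add_nonneg h3' h4') h5'
  exact nonneg_of_mul_nonneg_right key h0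

theorem core2 (k a b c d e : ℝ) (vab vac vad vae vbc vbd vbe vcd vce vde : ℝ)
    (ha : 0 ≤ a) (hb : 0 ≤ b) (hc : 0 ≤ c) (hd : 0 ≤ d) (he : 0 ≤ e)
    (h1 : 0 ≤ vab) (h2 : 0 ≤ vac) (h3 : 0 ≤ vad) (h4 : 0 ≤ vae) (h5 : 0 ≤ vbc) (h6 : 0 ≤ vbd)
    (h7 : 0 ≤ vbe) (h8 : 0 ≤ vcd) (h9 : 0 ≤ vce) (h10 : 0 ≤ vde)
    (ra : vab + vac + vad + vae = 5 * k - 5 - a) (rb : vab + vbc + vbd + vbe = 5 * k - 5 - b)
    (rc : vac + vbc + vcd + vce = 5 * k - 5 - c) (rd : vad + vbd + vcd + vde = 5 * k - 5 - d)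
    (re : vae + vbe + vce + vde = 5 * k - 5 - e) (hs : a + b + c + d + e = 5 * k - 5) :
    135 + 4 * (53 - 44 * k) *
      ((k - a) ^ 2 + (k - b) ^ 2 + (k - c) ^ 2 + (k - d) ^ 2 + (k - e) ^ 2 - 5) ≤
      1875 - 300 * ((k - a) ^ 2 + (k - b) ^ 2 + (k - c) ^ 2 + (k - d) ^ 2 + (k - e) ^ 2)
      + 80 * ((k - a) ^ 3 + (k - b) ^ 3 + (k - c) ^ 3 + (k - d) ^ 3 + (k - e) ^ 3)
      - 64 * ((k - a) * (k - b) * (k - vab) + (k - a) * (k - c) * (k - vac)
        + (k - a) * (k - d) * (k - vad) + (k - a) * (k - e) * (k - vae)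
        + (k - b) * (k - c) * (k - vbc) + (k - b) * (k - d) * (k - vbd)
        + (k - b) * (k - e) * (k - vbe) + (k - c) * (k - d) * (k - vcd)
        + (k - c) * (k - e) * (k - vce) + (k - d) * (k - e) * (k - vde)) := by
  have hw := weight (5 * k - 5) a b c d e vab vac vad vae vbc vbd vbe vcd vce vde ha hb hc hd he
    h1 h2 h3 h4 h5 h6 h7 h8 h9 h10 ra rb rc rd re hs
  have hid : 1875 - 300 * ((k - a) ^ 2 + (k - b) ^ 2 + (k - c) ^ 2 + (k - d) ^ 2 + (k - e) ^ 2)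
      + 80 * ((k - a) ^ 3 + (k - b) ^ 3 + (k - c) ^ 3 + (k - d) ^ 3 + (k - e) ^ 3)
      - 64 * ((k - a) * (k - b) * (k - vab) + (k - a) * (k - c) * (k - vac)
        + (k - a) * (k - d) * (k - vad) + (k - a) * (k - e) * (k - vae)
        + (k - b) * (k - c) * (k - vbc) + (k - b) * (k - d) * (k - vbd)
        + (k - b) * (k - e) * (k - vbe) + (k - c) * (k - d) * (k - vcd)
        + (k - c) * (k - e) * (k - vce) + (k - d) * (k - e) * (k - vde)) -
      (135 + 4 * (53 - 44 * k) *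
        ((k - a) ^ 2 + (k - b) ^ 2 + (k - c) ^ 2 + (k - d) ^ 2 + (k - e) ^ 2 - 5)) =
      16 * (11 / 5 * (5 * k - 5) * (a * b + a * c + a * d + a * e + b * c + b * d + b * e + c * d
        + c * e + d * e)
      - 15 * (a * b * c + a * b * d + a * b * e + a * c * d + a * c * e
        + a * d * e + b * c * d + b * c * e + b * d * e + c * d * e)
      + 4 * (a * b * vab + a * c * vac + a * d * vad + a * e * vae + b * c * vbc + b * d * vbd
        + b * e * vbe + c * d * vcd + c * e * vce + d * e * vde)) := by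
    have hk : k = 1 + (a + b + c + d + e) / 5 := by linarith
    subst hk
    linear_combination 32 * ((1 + (a + b + c + d + e) / 5) ^ 2
        - 2 * (1 + (a + b + c + d + e) / 5) * a) * ra
      + 32 * ((1 + (a + b + c + d + e) / 5) ^ 2 - 2 * (1 + (a + b + c + d + e) / 5) * b) * rb
      + 32 * ((1 + (a + b + c + d + e) / 5) ^ 2 - 2 * (1 + (a + b + c + d + e) / 5) * c) * rc
      + 32 * ((1 + (a + b + c + d + e) / 5) ^ 2 - 2 * (1 + (a + b + c + d + e) / 5) * d) * rd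
      + 32 * ((1 + (a + b + c + d + e) / 5) ^ 2 - 2 * (1 + (a + b + c + d + e) / 5) * e) * re
  linarith [hid, hw]

theorem fin_ineq2 (k : ℝ) (l : Fin 5 → ℝ) (K : Fin 5 → Fin 5 → ℝ)
    (hsym : ∀ i j, K i j = K j i) (hd : ∀ i, K i i = 0) (hK : ∀ i j, i ≠ j → K i j ≤ k)
    (hrow : ∀ i, ∑ j, K i j = 5 - l i) (hl : ∀ i, l i ≤ k) (hs : ∑ i, l i = 5) :
    135 + 4 * (53 - 44 * k) * (∑ i, l i ^ 2 - 5) ≤
      1875 - 300 * ∑ i, l i ^ 2 + 80 * ∑ i, l i ^ 3
      - 32 * ∑ i, ∑ j, l i * l j * K i j := by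
  have r0 := hrow 0
  have r1 := hrow 1
  have r2 := hrow 2
  have r3 := hrow 3
  have r4 := hrow 4
  simp only [Fin.sum_univ_five] at r0 r1 r2 r3 r4 hs ⊢
  rw [hsym 1 0] at r1
  rw [hsym 2 0, hsym 2 1] at r2
  rw [hsym 3 0, hsym 3 1, hsym 3 2] at r3
  rw [hsym 4 0, hsym 4 1, hsym 4 2, hsym 4 3] at r4
  rw [hsym 1 0, hsym 2 0, hsym 2 1, hsym 3 0, hsym 3 1, hsym 3 2, hsym 4 0, hsym 4 1, hsym 4 2,
    hsym 4 3]
  rw [hd 0] at r0
  rw [hd 1] at r1
  rw [hd 2] at r2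
  rw [hd 3] at r3
  rw [hd 4] at r4
  rw [hd 0, hd 1, hd 2, hd 3, hd 4]
  have h := core2 k (k - l 0) (k - l 1) (k - l 2) (k - l 3) (k - l 4) (k - K 0 1) (k - K 0 2)
    (k - K 0 3) (k - K 0 4) (k - K 1 2) (k - K 1 3) (k - K 1 4) (k - K 2 3) (k - K 2 4)
    (k - K 3 4) (sub_nonneg.2 (hl 0)) (sub_nonneg.2 (hl 1)) (sub_nonneg.2 (hl 2))
    (sub_nonneg.2 (hl 3)) (sub_nonneg.2 (hl 4)) (sub_nonneg.2 (hK 0 1 (by decide)))
    (sub_nonneg.2 (hK 0 2 (by decide)))
    (sub_nonneg.2 (hK 0 3 (by decide))) (sub_nonneg.2 (hK 0 4 (by decide)))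
    (sub_nonneg.2 (hK 1 2 (by decide))) (sub_nonneg.2 (hK 1 3 (by decide)))
    (sub_nonneg.2 (hK 1 4 (by decide))) (sub_nonneg.2 (hK 2 3 (by decide)))
    (sub_nonneg.2 (hK 2 4 (by decide))) (sub_nonneg.2 (hK 3 4 (by decide))) (by linarith)
    (by linarith) (by linarith) (by linarith) (by linarith) (by linarith)
  simp only [sub_sub_cancel] at h
  refine h.trans (le_of_eq ?_)
  ring

end Pool.Agent.Q188.Ein
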