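import Pool.Agent.Q188.Ein.Vec

/-!
# Integrated form of the bound with the Weyl energy
-/

set_option autoImplicit false

open MeasureTheory

namespace Pool.Agent.Q188.Ein

variable {M : Type} [MeasurableSpace M] {μ : Measure M}

/-- the integrated inequality -/
theorem int_ge [IsFiniteMeasure μ] {f w : M → ℝ} {r s : ℝ} (hf : Integrable f μ)
    (hw : Integrable w μ) (h : ∀ p, r * (1 + s * w p) ≤ f p) :
    r * (μ.real Set.univ + s * ∫ p, w p ∂μ) ≤ ∫ p, f p ∂μ := by
  have h1 : ∫ p, r * (1 + s * w p) ∂μ = r * (μ.real Set.univ + s * ∫ p, w p ∂μ) := by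
    rw [integral_const_mul, integral_add (integrable_const _) (hw.const_mul s), integral_const,
      integral_const_mul, smul_eq_mul, mul_one]
  rw [← h1]
  exact integral_mono (((integrable_const _).add (hw.const_mul s)).const_mul r) hf h

/-- the inequality for the volume -/
theorem int_ge0 [IsFiniteMeasure μ] {f w : M → ℝ} {r s : ℝ} (hr : 0 < r) (hs : 0 ≤ s)
    (hf : Integrable f μ) (hw : ∀ p, 0 ≤ w p) (h : ∀ p, r * (1 + s * w p) ≤ f p) :
    r * μ.real Set.univ ≤ ∫ p, f p ∂μ := by
  have h1 : ∫ _p : M, r ∂μ = r * μ.real Set.univ := by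
    rw [integral_const, smul_eq_mul, mul_comm]
  rw [← h1]
  refine integral_mono (integrable_const _) hf fun p => ?_
  have := h p
  have h2 : 0 ≤ r * (s * w p) := mul_nonneg hr.le (mul_nonneg hs (hw p))
  show r ≤ f p
  linarith

/-- the case of equality -/
theorem int_eq0 [IsFiniteMeasure μ] {f w : M → ℝ} {r s : ℝ} (hr : 0 < r) (hs : 0 < s)
    (hf : Integrable f μ) (hw : ∀ p, 0 ≤ w p) (h : ∀ p, r * (1 + s * w p) ≤ f p)
    (he : ∫ p, f p ∂μ = r * μ.real Set.univ) : ∀ᵐ p ∂μ, w p = 0 := by
  have h1 : ∫ _p : M, r ∂μ = r * μ.real Set.univ := by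
    rw [integral_const, smul_eq_mul, mul_comm]
  have h2 : ∫ p, (f p - r) ∂μ = 0 := by
    rw [integral_sub hf (integrable_const _), h1, he, sub_self]
  have h3 : ∀ p, 0 ≤ f p - r := fun p => by
    have := h p
    have h2 : 0 ≤ r * (s * w p) := mul_nonneg hr.le (mul_nonneg hs.le (hw p))
    linarith
  have h4 := (integral_eq_zero_iff_of_nonneg h3 (hf.sub (integrable_const _))).1 h2
  filter_upwards [h4] with p hp
  have hp' : f p - r = 0 := hp
  have := h p
  have h5 : r * (s * w p) ≤ 0 := by linarith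
  have h6 : 0 < r * s := mul_pos hr hs
  have h7 : w p ≤ 0 := by
    by_contra hc
    push Not at hc
    have : 0 < r * s * w p := mul_pos h6 hc
    linarith
  exact le_antisymm h7 (hw p)

end Pool.Agent.Q188.Ein
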