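import Pool.Agent.Q188.Ein.Pt
import Pool.Agent.W714.ES.Sharp

/-!
# The Weyl energy and the integrand for six-dimensional Einstein curvature tensors
-/

set_option autoImplicit false

open scoped BigOperators

namespace Pool.Agent.Q188.Ein

open Hopf6 Pool.Agent.W714.HE Pool.Agent.W714.ES

/-! ### tensors in coordinates -/

theorem jx_five {R : Ten} (hE : ∀ a b, Rc R a b = if a = b then 5 else 0) {x : Fin 6 → ℝ}
    (hx : ∑ a, x a ^ 2 = 1) : jx R x = 5 := by
  unfold jx
  have : ∀ p, ∑ q, Rc R p q * (x p * x q) = 5 * x p ^ 2 := by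
    intro p
    simp only [hE]
    rw [Finset.sum_eq_single p]
    · simp
      ring
    · intro q _ hq
      rw [if_neg (Ne.symm hq), zero_mul]
    · simp
  simp only [this]
  rw [← Finset.mul_sum, hx, mul_one]

theorem av_mJJ {ι : Type} [Fintype ι] (D : Design ι) {R : Ten} (hR : IsCurv R)
    (hE : ∀ a b, Rc R a b = if a = b then 5 else 0) :
    D.av (mJJ R) = 25 / 8 + nS R / 32 := by
  have h1 := D.av_jJJ hR
  rw [I5_ein hE, I6_ein hE, sc_ein hE, nR_ein hE] at h1
  have h2 : D.av (fun x => jx R x * mJJ R x) = 5 * D.av (mJJ R) := by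
    unfold Design.av
    rw [Finset.mul_sum]
    refine Finset.sum_congr rfl fun i _ => ?_
    show D.w i * (jx R (D.X i) * mJJ R (D.X i)) = _
    rw [jx_five hE (D.unit i)]
    ring
  rw [h2] at h1
  linarith

/-- the square norm of the Jacobi operator under an upper curvature bound -/
theorem mJJ_le {R : Ten} {x : Fin 6 → ℝ} {k : ℝ} (hR : IsCurv R)
    (hE : ∀ a b, Rc R a b = if a = b then 5 else 0) (hx : ∑ a, x a ^ 2 = 1)
    (h : ∀ z : Fin 6 → ℝ, ∑ a, z a ^ 2 = 1 → ∀ y, quad R z y ≤ k * area2 z y) :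
    mJJ R x ≤ 5 + 20 * (k - 1) ^ 2 := by
  obtain ⟨w, l, h1, h2, hc, hJ⟩ := exists_frame (MJ R x) (MJ_symm x hR) x hx
    (fun a => Jm_x x hR a)
  let W : Matrix (Fin 5) (Fin 6) ℝ := Matrix.of w
  let Dg : Matrix (Fin 5) (Fin 5) ℝ := Matrix.diagonal l
  have hWW : W * W.transpose = 1 := by
    ext i j
    rw [Matrix.mul_apply, Matrix.one_apply]
    simpa [W] using h1 i j
  have hJW : MJ R x = W.transpose * Dg * W := by
    ext a b
    rw [hJ a b, Matrix.mul_apply]
    refine Finset.sum_congr rfl fun i _ => ?_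
    rw [Matrix.mul_diagonal]
    simp only [W, Matrix.transpose_apply, Matrix.of_apply]
    ring
  have hJJ : MJ R x * MJ R x = W.transpose * (Dg * Dg) * W := by
    rw [hJW]
    calc W.transpose * Dg * W * (W.transpose * Dg * W)
        = W.transpose * Dg * (W * W.transpose) * Dg * W := by simp only [Matrix.mul_assoc]
      _ = _ := by rw [hWW, Matrix.mul_one]; simp only [Matrix.mul_assoc]
  have htr : ∀ A : Matrix (Fin 5) (Fin 5) ℝ, (W.transpose * A * W).trace = A.trace := by
    intro A
    rw [Matrix.mul_assoc, Matrix.trace_mul_comm, Matrix.mul_assoc, hWW, Matrix.mul_one]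
  have t1 : jx R x = ∑ i, l i := by
    rw [← tr_MJ, hJW, htr]
    simp [Dg, Matrix.trace_diagonal]
  have t2 : mJJ R x = ∑ i, l i ^ 2 := by
    rw [← tr_JJ hR, hJJ, htr]
    simp only [Dg, Matrix.diagonal_mul_diagonal, Matrix.trace_diagonal]
    exact Finset.sum_congr rfl fun i _ => by ring
  have hu : ∀ i, ∑ a, w i a ^ 2 = 1 := fun i => by
    have := h1 i i
    rw [if_pos rfl] at this
    rw [← this]
    exact Finset.sum_congr rfl fun a _ => by ring
  have hJquad : ∀ i, quad R x (w i) = l i := by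
    intro i
    rw [quad_J]
    have h5 : ∀ a b, Jm R x a b * (w i a * w i b) =
        (∑ j, l j * (w j a * w j b)) * (w i a * w i b) := fun a b => by
      rw [← hJ a b]
      rfl
    simp only [h5]
    rw [lin_sum l (fun j a b => w j a * w j b) (fun a b => w i a * w i b)]
    have h6 : ∀ j, ∑ a, ∑ b, w j a * w j b * (w i a * w i b) = if j = i then 1 else 0 := by
      intro j
      have : ∑ a, ∑ b, w j a * w j b * (w i a * w i b) =
          (∑ a, w j a * w i a) * ∑ b, w j b * w i b := by
        rw [Finset.sum_mul_sum]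
        exact Finset.sum_congr rfl fun a _ => Finset.sum_congr rfl fun b _ => by ring
      rw [this, h1 j i]
      split_ifs <;> simp
    simp only [h6]
    simp
  have h2l : ∀ i, l i ≤ k := fun i => by
    have h3 := h x hx (w i)
    have h4 : area2 x (w i) = 1 := by
      unfold area2
      rw [hx, hu i]
      have : ∑ a, x a * w i a = 0 := by
        rw [← h2 i]
        exact Finset.sum_congr rfl fun a _ => mul_comm _ _
      rw [this]
      norm_num
    rw [h4, hJquad i] at h3
    linarith
  have hs : ∑ i, l i = 5 := by rw [← t1, jx_five hE hx]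
  rw [t2]
  have hv : ∑ i, (k - l i) ^ 2 ≤ (∑ i, (k - l i)) ^ 2 :=
    Finset.sum_sq_le_sq_sum_of_nonneg fun i _ => by linarith [h2l i]
  have e1 : ∑ i, (k - l i) = 5 * k - 5 := by
    rw [Finset.sum_sub_distrib, hs]
    simp
  have e2 : ∑ i, (k - l i) ^ 2 = 5 * k ^ 2 - 10 * k + ∑ i, l i ^ 2 := by
    have : ∀ i, (k - l i) ^ 2 = k ^ 2 - 2 * k * l i + l i ^ 2 := fun i => by ring
    simp only [this]
    rw [Finset.sum_add_distrib, Finset.sum_sub_distrib, ← Finset.mul_sum, hs]
    simp
    ring
  rw [e1, e2] at hv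
  nlinarith [hv]

/-- the bound of the integrand by the norm of the curvature tensor, for Ricci curvature five -/
theorem core {k : ℝ} {R : Ten} (hR : IsCurv R) (hE : ∀ a b, Rc R a b = if a = b then 5 else 0)
    (h : ∀ z : Fin 6 → ℝ, ∑ a, z a ^ 2 = 1 → ∀ y, quad R z y ≤ k * area2 z y) :
    128 / 3 * (135 + (53 - 44 * k) / 8 * (nS R - 60)) ≤ gb R := by
  obtain ⟨ι, _, ⟨D⟩⟩ := exists_design
  have h1 : 0 ≤ D.av (fun x => ff R x + (mJJ R x * (-(4 * (53 - 44 * k))) +
      (20 * (53 - 44 * k) - 135))) :=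
    D.av_nonneg fun i => by
      have := ff_ge2 hR hE (D.unit i) h
      linarith
  have h2 : D.av (fun x => ff R x + (mJJ R x * (-(4 * (53 - 44 * k))) +
      (20 * (53 - 44 * k) - 135))) =
      D.av (ff R) + (D.av (mJJ R) * (-(4 * (53 - 44 * k))) + (20 * (53 - 44 * k) - 135)) := by
    rw [Design.av_add D (ff R), Design.av_add D (fun x => mJJ R x * (-(4 * (53 - 44 * k)))),
      Design.av_one, Design.av_mul]
  rw [h2, av_ff D hR hE, av_mJJ D hR hE] at h1
  linarith

/-- the norm of the curvature tensor, for Ricci curvature five and an upper curvature bound -/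
theorem core_le {k : ℝ} {R : Ten} (hR : IsCurv R)
    (hE : ∀ a b, Rc R a b = if a = b then 5 else 0)
    (h : ∀ z : Fin 6 → ℝ, ∑ a, z a ^ 2 = 1 → ∀ y, quad R z y ≤ k * area2 z y) :
    nS R - 60 ≤ 640 * (k - 1) ^ 2 := by
  obtain ⟨ι, _, ⟨D⟩⟩ := exists_design
  have h1 : 0 ≤ D.av (fun x => mJJ R x * (-1) + (5 + 20 * (k - 1) ^ 2)) :=
    D.av_nonneg fun i => by
      have := mJJ_le hR hE (D.unit i) h
      linarith
  have h2 : D.av (fun x => mJJ R x * (-1) + (5 + 20 * (k - 1) ^ 2)) =
      D.av (mJJ R) * (-1) + (5 + 20 * (k - 1) ^ 2) := by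
    rw [Design.av_add D (fun x => mJJ R x * (-1)), Design.av_one, Design.av_mul]
  rw [h2, av_mJJ D hR hE] at h1
  linarith

/-! ### the Weyl energy -/

/-- the squared distance of a tensor to the tensor of constant curvature `c` -/
def wn (c : ℝ) (T : Ten) : ℝ := ∑ a, ∑ b, ∑ p, ∑ q,
  (T a b p q - c * ((if a = p then 1 else 0) * (if b = q then 1 else 0) -
    (if a = q then 1 else 0) * (if b = p then 1 else 0))) ^ 2

theorem round_sq : ∑ a : Fin 6, ∑ b : Fin 6, ∑ p : Fin 6, ∑ q : Fin 6,
    (((if a = p then 1 else 0) * (if b = q then 1 else 0) -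
    (if a = q then 1 else 0) * (if b = p then 1 else 0) : ℝ)) ^ 2 = 60 := by
  have h : ∀ a b p q : Fin 6, (((if a = p then 1 else 0) * (if b = q then 1 else 0) -
      (if a = q then 1 else 0) * (if b = p then 1 else 0) : ℝ)) ^ 2 =
      ((((if a = p then 1 else 0) * (if b = q then 1 else 0) -
      (if a = q then 1 else 0) * (if b = p then 1 else 0) : ℤ) ^ 2 : ℤ) : ℝ) := by
    intro a b p q
    push_cast
    rfl
  simp only [h]
  have h2 : ∑ a : Fin 6, ∑ b : Fin 6, ∑ p : Fin 6, ∑ q : Fin 6,
      (((if a = p then 1 else 0) * (if b = q then 1 else 0) -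
      (if a = q then 1 else 0) * (if b = p then 1 else 0) : ℤ) ^ 2 : ℤ) = 60 := by decide +kernel
  exact_mod_cast h2

theorem wn_eq {c : ℝ} {T : Ten} (hT : IsCurv T) (hs : sc T = 30 * c) :
    wn c T = nS T - 60 * c ^ 2 := by
  have e1 : ∀ a b : Fin 6, ∑ p, ∑ q, T a b p q * ((if a = p then 1 else 0) * (if b = q then 1 else 0) -
      (if a = q then 1 else 0) * (if b = p then 1 else 0)) = T a b a b - T a b b a := by
    intro a b
    have : ∀ p q, T a b p q * ((if a = p then 1 else 0) * (if b = q then 1 else 0) -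
      (if a = q then 1 else 0) * (if b = p then 1 else 0)) =
      (if a = p then (if b = q then T a b p q else 0) else 0) -
      (if b = p then (if a = q then T a b p q else 0) else 0) := by
      intro p q
      split_ifs <;> simp
    simp only [this, Finset.sum_sub_distrib]
    congr 1
    · rw [Finset.sum_eq_single a]
      · rw [Finset.sum_eq_single b]
        · simp
        · intro q _ hq
          rw [if_pos rfl, if_neg (Ne.symm hq)]
        · simp
      · intro p _ hp
        simp [Ne.symm hp]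
      · simp
    · rw [Finset.sum_eq_single b]
      · rw [Finset.sum_eq_single a]
        · simp
        · intro q _ hq
          rw [if_pos rfl, if_neg (Ne.symm hq)]
        · simp
      · intro p _ hp
        simp [Ne.symm hp]
      · simp
  have e2 : ∀ a b, T a b b a = - T a b a b := by
    intro a b
    have h1 := hT.pair b a a b
    have h2 := hT.anti a b a b
    linarith [hT.pair a b a b, hT.anti b a a b]
  have e3 : ∑ a, ∑ b, ∑ p, ∑ q, T a b p q * ((if a = p then 1 else 0) * (if b = q then 1 else 0) -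
      (if a = q then 1 else 0) * (if b = p then 1 else 0)) = 60 * c := by
    simp only [e1, e2]
    have : ∀ a b, T a b a b - - T a b a b = 2 * T a b a b := fun a b => by ring
    simp only [this, ← Finset.mul_sum]
    have h3 : ∑ a, ∑ b, T a b a b = sc T := rfl
    rw [h3, hs]
    ring
  have e4 : wn c T = nS T - 2 * c * (∑ a, ∑ b, ∑ p, ∑ q, T a b p q *
      ((if a = p then 1 else 0) * (if b = q then 1 else 0) -
      (if a = q then 1 else 0) * (if b = p then 1 else 0))) + c ^ 2 * (∑ a : Fin 6, ∑ b : Fin 6,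
    ∑ p : Fin 6, ∑ q : Fin 6,
    (((if a = p then 1 else 0) * (if b = q then 1 else 0) -
    (if a = q then 1 else 0) * (if b = p then 1 else 0) : ℝ)) ^ 2) := by
    unfold wn nS
    have m : ∀ (f g h : Fin 6 → ℝ) (s t : ℝ), ∑ a, f a - s * ∑ a, g a + t * ∑ a, h a =
        ∑ a, (f a - s * g a + t * h a) := by
      intro f g h s t
      rw [Finset.sum_add_distrib, Finset.sum_sub_distrib, Finset.mul_sum, Finset.mul_sum]
    rw [m]
    refine Finset.sum_congr rfl fun a _ => ?_
    rw [m]
    refine Finset.sum_congr rfl fun b _ => ?_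
    rw [m]
    refine Finset.sum_congr rfl fun p _ => ?_
    rw [m]
    refine Finset.sum_congr rfl fun q _ => ?_
    ring
  rw [e4, e3, round_sq]
  ring

theorem nS_scl (t : ℝ) (T : Ten) : nS (scl t T) = t ^ 2 * nS T := by
  unfold nS scl
  rw [Finset.mul_sum]
  refine Finset.sum_congr rfl fun a _ => ?_
  rw [Finset.mul_sum]
  refine Finset.sum_congr rfl fun b _ => ?_
  rw [Finset.mul_sum]
  refine Finset.sum_congr rfl fun p _ => ?_
  rw [Finset.mul_sum]
  refine Finset.sum_congr rfl fun q _ => ?_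
  ring

end Pool.Agent.Q188.Ein
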