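import Pool.Agent.W714.HE.Pt
import Pool.Agent.Q188.Ein.Fin

/-!
# The integrand for six-dimensional Einstein curvature tensors with an upper curvature bound
(the sharp form with the Weyl energy)
-/

set_option autoImplicit false

open scoped BigOperators

namespace Pool.Agent.Q188.Ein

open Hopf6 Pool.Agent.W714.HE

section
variable {R : Ten} {x : Fin 6 → ℝ}

theorem ff_ge2 {k : ℝ} (hR : IsCurv R) (hE : ∀ a b, Rc R a b = if a = b then 5 else 0)
    (hx : ∑ a, x a ^ 2 = 1)
    (h : ∀ z : Fin 6 → ℝ, ∑ a, z a ^ 2 = 1 → ∀ y, quad R z y ≤ k * area2 z y) :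
    135 + 4 * (53 - 44 * k) * (mJJ R x - 5) ≤ ff R x := by
  obtain ⟨w, l, h1, h2, hc, hJ⟩ := exists_frame (MJ R x) (MJ_symm x hR) x hx
    (fun a => Jm_x x hR a)
  -- matrix form
  let W : Matrix (Fin 5) (Fin 6) ℝ := Matrix.of w
  let Dg : Matrix (Fin 5) (Fin 5) ℝ := Matrix.diagonal l
  have hWW : W * W.transpose = 1 := by
    ext i j
    rw [Matrix.mul_apply, Matrix.one_apply]
    simpa [W] using h1 i j
  have hJW : MJ R x = W.transpose * Dg * W := by
    ext a b
    rw [hJ a b, Matrix.mul_apply]
    refine Finset.sum_congr rfl fun i _ => ?_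
    rw [Matrix.mul_diagonal]
    simp only [W, Matrix.transpose_apply, Matrix.of_apply]
    ring
  have hJJ : MJ R x * MJ R x = W.transpose * (Dg * Dg) * W := by
    rw [hJW]
    calc W.transpose * Dg * W * (W.transpose * Dg * W)
        = W.transpose * Dg * (W * W.transpose) * Dg * W := by simp only [Matrix.mul_assoc]
      _ = _ := by rw [hWW, Matrix.mul_one]; simp only [Matrix.mul_assoc]
  have hJJJ : MJ R x * MJ R x * MJ R x = W.transpose * (Dg * Dg * Dg) * W := by
    rw [hJJ, hJW]
    calc W.transpose * (Dg * Dg) * W * (W.transpose * Dg * W)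
        = W.transpose * (Dg * Dg) * (W * W.transpose) * Dg * W := by simp only [Matrix.mul_assoc]
      _ = _ := by rw [hWW, Matrix.mul_one]; simp only [Matrix.mul_assoc]
  have htr : ∀ A : Matrix (Fin 5) (Fin 5) ℝ, (W.transpose * A * W).trace = A.trace := by
    intro A
    rw [Matrix.mul_assoc, Matrix.trace_mul_comm, Matrix.mul_assoc, hWW, Matrix.mul_one]
  have t1 : jx R x = ∑ i, l i := by
    rw [← tr_MJ, hJW, htr]
    simp [Dg, Matrix.trace_diagonal]
  have t2 : mJJ R x = ∑ i, l i ^ 2 := by
    rw [← tr_JJ hR, hJJ, htr]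
    simp only [Dg, Matrix.diagonal_mul_diagonal, Matrix.trace_diagonal]
    exact Finset.sum_congr rfl fun i _ => by ring
  have t3 : mJJJ R x = ∑ i, l i ^ 3 := by
    rw [← tr_JJJ, hJJJ, htr]
    simp only [Dg, Matrix.diagonal_mul_diagonal, Matrix.trace_diagonal]
    exact Finset.sum_congr rfl fun i _ => by ring
  -- the sectional curvatures of the frame
  let K : Fin 5 → Fin 5 → ℝ := fun i j => quad R (w i) (w j)
  have hsym : ∀ i j, K i j = K j i := fun i j => quad_symm hR _ _
  have hd : ∀ i, K i i = 0 := fun i => quad_self hR _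
  have hu : ∀ i, ∑ a, w i a ^ 2 = 1 := fun i => by
    have := h1 i i
    rw [if_pos rfl] at this
    rw [← this]
    exact Finset.sum_congr rfl fun a _ => by ring
  have hK : ∀ i j, i ≠ j → K i j ≤ k := by
    intro i j hij
    have h3 := h (w i) (hu i) (w j)
    have h4 : area2 (w i) (w j) = 1 := by
      unfold area2
      rw [hu i, hu j, h1 i j, if_neg hij]
      norm_num
    rw [h4] at h3
    linarith
  have hJquad : ∀ i, quad R x (w i) = l i := by
    intro i
    rw [quad_J]
    have h5 : ∀ a b, Jm R x a b * (w i a * w i b) =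
        (∑ j, l j * (w j a * w j b)) * (w i a * w i b) := fun a b => by
      rw [← hJ a b]
      rfl
    simp only [h5]
    rw [lin_sum l (fun j a b => w j a * w j b) (fun a b => w i a * w i b)]
    have h6 : ∀ j, ∑ a, ∑ b, w j a * w j b * (w i a * w i b) = if j = i then 1 else 0 := by
      intro j
      have : ∑ a, ∑ b, w j a * w j b * (w i a * w i b) =
          (∑ a, w j a * w i a) * ∑ b, w j b * w i b := by
        rw [Finset.sum_mul_sum]
        exact Finset.sum_congr rfl fun a _ => Finset.sum_congr rfl fun b _ => by ring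
      rw [this, h1 j i]
      split_ifs <;> simp
    simp only [h6]
    simp
  have h2l : ∀ i, l i ≤ k := fun i => by
    have h3 := h x hx (w i)
    have h4 : area2 x (w i) = 1 := by
      unfold area2
      rw [hx, hu i]
      have : ∑ a, x a * w i a = 0 := by
        rw [← h2 i]
        exact Finset.sum_congr rfl fun a _ => mul_comm _ _
      rw [this]
      norm_num
    rw [h4, hJquad i] at h3
    linarith
  have hj : jx R x = 5 := by
    unfold jx
    have : ∀ p, ∑ q, Rc R p q * (x p * x q) = 5 * x p ^ 2 := by
      intro p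
      simp only [hE]
      rw [Finset.sum_eq_single p]
      · simp
        ring
      · intro q _ hq
        rw [if_neg (Ne.symm hq), zero_mul]
      · simp
    simp only [this]
    rw [← Finset.mul_sum, hx, mul_one]
  have hs : ∑ i, l i = 5 := by rw [← t1, hj]
  have hrow : ∀ i, ∑ j, K i j = 5 - l i := by
    intro i
    have e1 : ∑ j, K i j + quad R (w i) x = 5 := by
      have e2 : ∀ y : Fin 6 → ℝ, quad R (w i) y =
          ∑ b, ∑ d, (y b * y d) * ∑ a, ∑ c, (w i a * w i c) * R a b c d := by
        intro y
        rw [quad_symm hR, quad_form]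
        refine Finset.sum_congr rfl fun b _ => Finset.sum_congr rfl fun d _ => ?_
        congr 1
        refine Finset.sum_congr rfl fun a _ => Finset.sum_congr rfl fun c _ => ?_
        have : R b a d c = R a b c d := by
          have h1 := hR.anti b a c d
          have h2 := hR.pair b a c d
          have h3 := hR.anti d c b a
          have h4 := hR.pair b a d c
          linarith
        rw [this]
      have e3 : ∑ j, K i j = ∑ b, ∑ d, (∑ j, w j b * w j d) *
          ∑ a, ∑ c, (w i a * w i c) * R a b c d := by
        have := lin_sum (fun _ => 1) (fun j b d => w j b * w j d)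
          (fun b d => ∑ a, ∑ c, (w i a * w i c) * R a b c d)
        simp only [one_mul] at this
        rw [this]
        exact Finset.sum_congr rfl fun j _ => e2 (w j)
      rw [e3, e2 x, ← Finset.sum_add_distrib]
      have e4 : ∀ b, (∑ d, (∑ j, w j b * w j d) * ∑ a, ∑ c, (w i a * w i c) * R a b c d) +
          ∑ d, (x b * x d) * ∑ a, ∑ c, (w i a * w i c) * R a b c d =
          ∑ a, ∑ c, (w i a * w i c) * R a b c b := by
        intro b
        rw [← Finset.sum_add_distrib]
        have : ∀ d, (∑ j, w j b * w j d) * ∑ a, ∑ c, (w i a * w i c) * R a b c d +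
            (x b * x d) * ∑ a, ∑ c, (w i a * w i c) * R a b c d =
            (if b = d then 1 else 0) * ∑ a, ∑ c, (w i a * w i c) * R a b c d := by
          intro d
          rw [← add_mul, hc b d]
        rw [Finset.sum_congr rfl fun d _ => this d]
        simp
      rw [Finset.sum_congr rfl fun b _ => e4 b]
      have e5 : ∑ b, ∑ a, ∑ c, (w i a * w i c) * R a b c b =
          ∑ a, ∑ c, (w i a * w i c) * Rc R a c := by
        rw [Finset.sum_comm]
        refine Finset.sum_congr rfl fun a _ => ?_
        rw [Finset.sum_comm]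
        refine Finset.sum_congr rfl fun c _ => ?_
        unfold Rc
        rw [Finset.mul_sum]
      rw [e5]
      have e6 : ∀ a, ∑ c, (w i a * w i c) * Rc R a c = 5 * w i a ^ 2 := by
        intro a
        simp only [hE]
        rw [Finset.sum_eq_single a]
        · simp
          ring
        · intro q _ hq
          rw [if_neg (Ne.symm hq), mul_zero]
        · simp
      simp only [e6]
      rw [← Finset.mul_sum, hu i, mul_one]
    have e7 : quad R (w i) x = l i := by rw [quad_symm hR, hJquad i]
    linarith
  have t4 : mJSJ R x = ∑ i, ∑ j, l i * l j * K i j := by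
    unfold mJSJ
    have e1 : ∀ a b, ∑ c, ∑ d, Jm R x a b * Jm R x c d * R a c b d =
        (∑ i, l i * (w i a * w i b)) * ∑ c, ∑ d, Jm R x c d * R a c b d := by
      intro a b
      rw [← hJ a b]
      simp only [Finset.mul_sum]
      exact Finset.sum_congr rfl fun c _ => Finset.sum_congr rfl fun d _ => by
        rw [mul_assoc]
        rfl
    simp only [e1]
    rw [lin_sum l (fun i a b => w i a * w i b) (fun a b => ∑ c, ∑ d, Jm R x c d * R a c b d)]
    refine Finset.sum_congr rfl fun i _ => ?_
    have e2 : ∀ a b, ∑ c, ∑ d, Jm R x c d * R a c b d =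
        ∑ j, l j * ∑ c, ∑ d, (w j c * w j d) * R a c b d := by
      intro a b
      rw [← lin_sum l (fun j c d => w j c * w j d) (fun c d => R a c b d)]
      exact Finset.sum_congr rfl fun c _ => Finset.sum_congr rfl fun d _ => by
        rw [← hJ c d]
        rfl
    simp only [e2]
    have e3 : ∑ a, ∑ b, w i a * w i b * ∑ j, l j * ∑ c, ∑ d, (w j c * w j d) * R a c b d =
        ∑ j, l j * K i j := by
      have e4 : ∀ a b, w i a * w i b * ∑ j, l j * ∑ c, ∑ d, (w j c * w j d) * R a c b d =
          (∑ j, l j * (w i a * w i b * ∑ c, ∑ d, (w j c * w j d) * R a c b d)) * 1 := by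
        intro a b
        rw [mul_one, Finset.mul_sum]
        exact Finset.sum_congr rfl fun j _ => by ring
      simp only [e4]
      rw [lin_sum l (fun j a b => w i a * w i b * ∑ c, ∑ d, (w j c * w j d) * R a c b d)
        (fun _ _ => 1)]
      refine Finset.sum_congr rfl fun j _ => ?_
      congr 1
      simp only [mul_one]
      exact (quad_form R (w i) (w j)).symm
    rw [e3, Finset.mul_sum]
    exact Finset.sum_congr rfl fun j _ => by ring
  unfold ff
  rw [t2, t3, t4]
  exact fin_ineq2 k l K hsym hd hK hrow h2l hs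

end

end Pool.Agent.Q188.Ein
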