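import Pool.Agent.Q188.Ein.Main

/-!
# The Weyl energy: curvature tensors on Euclidean vector spaces
-/

set_option autoImplicit false

open scoped BigOperators

namespace Pool.Agent.Q188.Ein

open Hopf6 Pool.Agent.W714.HE Pool.Agent.W714.ES

section
variable {V : Type*} [NormedAddCommGroup V] [InnerProductSpace ℝ V]

/-- the squared norm of the difference of `R` and the curvature tensor of constant curvature `c` -/
noncomputable def weylSq (e : OrthonormalBasis (Fin 6) ℝ V) (R : V → V → V → V → ℝ) (c : ℝ) : ℝ :=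
  ∑ a, ∑ b, ∑ p, ∑ q, (R (e a) (e b) (e p) (e q) -
    c * (inner ℝ (e a) (e p) * inner ℝ (e b) (e q) -
      inner ℝ (e a) (e q) * inner ℝ (e b) (e p))) ^ 2

variable (e : OrthonormalBasis (Fin 6) ℝ V) {R : V → V → V → V → ℝ}

theorem weylSq_eq_wn (R : V → V → V → V → ℝ) (c : ℝ) : weylSq e R c = wn c (tn e R) := by
  unfold weylSq wn tn
  simp only [orthonormal_iff_ite.1 e.orthonormal]

theorem weylSq_nonneg (R : V → V → V → V → ℝ) (c : ℝ) : 0 ≤ weylSq e R c := by
  unfold weylSq
  positivity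

theorem weylSq_neg (R : V → V → V → V → ℝ) (c : ℝ) :
    weylSq e (fun x y z w => - R x y z w) c = weylSq e R (-c) := by
  unfold weylSq
  refine Finset.sum_congr rfl fun a _ => Finset.sum_congr rfl fun b _ =>
    Finset.sum_congr rfl fun p _ => Finset.sum_congr rfl fun q _ => ?_
  ring

theorem sc_ein' (hR : AlgCurv R) {c : ℝ} (hc : 0 < c) (hE : Einstein e R c) :
    sc (tn e R) = 30 * c := by
  have h1 := sc_ein (Rc_ein e hR hc hE)
  rw [sc_scl] at h1
  field_simp at h1
  linarith

theorem weylSq_nS (hR : AlgCurv R) {c : ℝ} (hc : 0 < c) (hE : Einstein e R c) :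
    weylSq e R c = c ^ 2 * (nS (scl c⁻¹ (tn e R)) - 60) := by
  rw [weylSq_eq_wn, wn_eq (tn_curv e hR) (sc_ein' e hR hc hE), nS_scl]
  field_simp

/-- the curvature tensors with vanishing Weyl energy -/
theorem weylSq_zero (hR : AlgCurv R) {c : ℝ} (h : weylSq e R c = 0) (x y z w : V) :
    R x y z w = c * (inner ℝ x z * inner ℝ y w - inner ℝ x w * inner ℝ y z) := by
  unfold weylSq at h
  have h0 : ∀ a b p q, R (e a) (e b) (e p) (e q) =
      c * (inner ℝ (e a) (e p) * inner ℝ (e b) (e q) -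
        inner ℝ (e a) (e q) * inner ℝ (e b) (e p)) := by
    intro a b p q
    have h1 := (Finset.sum_eq_zero_iff_of_nonneg fun a _ => by positivity).1 h a (Finset.mem_univ _)
    have h2 := (Finset.sum_eq_zero_iff_of_nonneg fun a _ => by positivity).1 h1 b (Finset.mem_univ _)
    have h3 := (Finset.sum_eq_zero_iff_of_nonneg fun a _ => by positivity).1 h2 p (Finset.mem_univ _)
    have h4 := (Finset.sum_eq_zero_iff_of_nonneg fun a _ => by positivity).1 h3 q (Finset.mem_univ _)
    have h5 := pow_eq_zero_iff (two_ne_zero) |>.1 h4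
    linarith
  have hv : ∀ u : V, u = vc e (fun a => inner ℝ (e a) u) := by
    intro u
    unfold vc
    exact (e.sum_repr' u).symm
  have hi : ∀ u v : V, inner ℝ u v = ∑ a, inner ℝ (e a) u * inner ℝ (e a) v := by
    intro u v
    conv_lhs => rw [hv u, hv v]
    rw [vc_inner]
  rw [hv x, lin1 e hR]
  have e1 : ∀ a, R (e a) y z w = c * (inner ℝ (e a) z * inner ℝ y w - inner ℝ (e a) w * inner ℝ y z) := by
    intro a
    rw [hv y, lin2 e hR]
    have e2 : ∀ b, R (e a) (e b) z w =
        c * (inner ℝ (e a) z * inner ℝ (e b) w - inner ℝ (e a) w * inner ℝ (e b) z) := by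
      intro b
      rw [hv z, lin3 e hR]
      have e3 : ∀ p, R (e a) (e b) (e p) w =
          c * (inner ℝ (e a) (e p) * inner ℝ (e b) w - inner ℝ (e a) w * inner ℝ (e b) (e p)) := by
        intro p
        rw [hv w, lin4 e hR]
        have : ∀ q, inner ℝ (e q) w * R (e a) (e b) (e p) (e q) =
            c * inner ℝ (e a) (e p) * (inner ℝ (e q) (e b) * inner ℝ (e q) w) -
            c * inner ℝ (e b) (e p) * (inner ℝ (e q) (e a) * inner ℝ (e q) w) := by
          intro q
          rw [h0, real_inner_comm (e q) (e b), real_inner_comm (e q) (e a)]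
          ring
        simp only [this, Finset.sum_sub_distrib, ← Finset.mul_sum]
        rw [← hi, ← hi, ← hv w]
        ring
      have : ∀ p, inner ℝ (e p) z * R (e a) (e b) (e p) w =
          c * inner ℝ (e b) w * (inner ℝ (e p) (e a) * inner ℝ (e p) z) -
          c * inner ℝ (e a) w * (inner ℝ (e p) (e b) * inner ℝ (e p) z) := by
        intro p
        rw [e3, real_inner_comm (e p) (e b), real_inner_comm (e p) (e a)]
        ring
      simp only [this, Finset.sum_sub_distrib, ← Finset.mul_sum]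
      rw [← hi, ← hi, ← hv z]
      ring
    have : ∀ b, inner ℝ (e b) y * R (e a) (e b) z w =
        c * inner ℝ (e a) z * (inner ℝ (e b) y * inner ℝ (e b) w) -
        c * inner ℝ (e a) w * (inner ℝ (e b) y * inner ℝ (e b) z) := by
      intro b
      rw [e2]
      ring
    simp only [this, Finset.sum_sub_distrib, ← Finset.mul_sum]
    rw [← hi, ← hi, ← hv y]
    ring
  have : ∀ a, inner ℝ (e a) x * R (e a) y z w =
      c * inner ℝ y w * (inner ℝ (e a) x * inner ℝ (e a) z) -
      c * inner ℝ y z * (inner ℝ (e a) x * inner ℝ (e a) w) := by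
    intro a
    rw [e1]
    ring
  simp only [this, Finset.sum_sub_distrib, ← Finset.mul_sum]
  rw [← hi, ← hi, ← hv x]
  ring

/-- the pointwise bound, positive case -/
theorem pos2 {k : ℝ} (hR : AlgCurv R) {c : ℝ} (hc : 0 < c) (hE : Einstein e R c)
    (h : SecLE R (k * c)) :
    roundGB c * (1 + (53 - 44 * k) / (1080 * c ^ 2) * weylSq e R c) ≤ gbc e R ∧
      weylSq e R c ≤ 640 * (k - 1) ^ 2 * c ^ 2 := by
  have hC := scl_curv (tn_curv e hR) c⁻¹
  have h1 := core hC (Rc_ein e hR hc hE) (fun x hx y => comp_bound1 e hR hc h x hx y)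
  have h2 := core_le hC (Rc_ein e hR hc hE) (fun x hx y => comp_bound1 e hR hc h x hx y)
  have hpi := Real.pi_pos
  have hc3 : 0 < c ^ 3 := by positivity
  constructor
  · rw [gb_scl] at h1
    have h3 : 128 / 3 * (135 + (53 - 44 * k) / 8 * (nS (scl c⁻¹ (tn e R)) - 60)) * c ^ 3 ≤
        gb (tn e R) := by
      calc _ ≤ (c⁻¹ ^ 3 * gb (tn e R)) * c ^ 3 := mul_le_mul_of_nonneg_right h1 hc3.le
        _ = gb (tn e R) := by field_simp
    rw [gbc_eq, weylSq_nS e hR hc hE]
    have h4 : roundGB c * (1 + (53 - 44 * k) / (1080 * c ^ 2) *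
        (c ^ 2 * (nS (scl c⁻¹ (tn e R)) - 60))) = 1 / ((8 * Real.pi) ^ 3 * 6) *
        (128 / 3 * (135 + (53 - 44 * k) / 8 * (nS (scl c⁻¹ (tn e R)) - 60)) * c ^ 3) := by
      unfold roundGB
      field_simp
      ring
    rw [h4]
    exact mul_le_mul_of_nonneg_left h3 (by positivity)
  · rw [weylSq_nS e hR hc hE]
    have hc2 : 0 < c ^ 2 := by positivity
    nlinarith [mul_le_mul_of_nonneg_left h2 hc2.le]

/-- the pointwise bound, negative case -/
theorem neg2 {k : ℝ} (hR : AlgCurv R) {c : ℝ} (hc : 0 < c) (hE : Einstein e R (-c))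
    (h : SecGE R (-(k * c))) :
    gbc e R ≤ -(roundGB c * (1 + (53 - 44 * k) / (1080 * c ^ 2) * weylSq e R (-c))) ∧
      weylSq e R (-c) ≤ 640 * (k - 1) ^ 2 * c ^ 2 := by
  have hE' : Einstein e (fun x y z w => - R x y z w) c := by
    intro v w
    have := hE v w
    rw [Finset.sum_neg_distrib, this]
    ring
  have hS : SecLE (fun x y z w => - R x y z w) (k * c) := by
    intro x y hx hy hxy
    have := h x y hx hy hxy
    linarith
  have h1 := pos2 e (neg_curv hR) hc hE' hS
  rw [weylSq_neg, gbc_eq, gb_neg] at h1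
  refine ⟨?_, h1.2⟩
  rw [gbc_eq]
  linarith [h1.1]

end

/-! ### the extremal tensors -/

/-- the symplectic form on the standard basis -/
def wI (a b : Fin 6) : ℤ :=
  (if a = 1 then 1 else 0) * (if b = 0 then 1 else 0) -
  (if a = 0 then 1 else 0) * (if b = 1 then 1 else 0) +
  (if a = 3 then 1 else 0) * (if b = 2 then 1 else 0) -
  (if a = 2 then 1 else 0) * (if b = 3 then 1 else 0) +
  (if a = 5 then 1 else 0) * (if b = 4 then 1 else 0) -
  (if a = 4 then 1 else 0) * (if b = 5 then 1 else 0)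

theorem w6_wI (a b : Fin 6) : w6 (be a) (be b) = (wI a b : ℝ) := by
  unfold w6 wI
  simp only [be_apply]
  push_cast
  ring

theorem weylSq_Rex (k c : ℝ) : weylSq be (Rex (k * c) ((5 * k - 5) * c)) c =
    640 * (k - 1) ^ 2 * c ^ 2 := by
  have h : ∀ a b p q : Fin 6, (Rex (k * c) ((5 * k - 5) * c) (be a) (be b) (be p) (be q) -
      c * (inner ℝ (be a) (be p) * inner ℝ (be b) (be q) -
        inner ℝ (be a) (be q) * inner ℝ (be b) (be p))) ^ 2 =
      (k - 1) ^ 2 * c ^ 2 / 9 * (((3 * ((if a = p then 1 else 0) * (if b = q then 1 else 0) -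
      (if a = q then 1 else 0) * (if b = p then 1 else 0)) - 5 * (wI a p * wI b q - wI a q * wI b p
        + 2 * (wI a b * wI p q))) ^ 2 : ℤ) : ℝ) := by
    intro a b p q
    unfold Rex
    simp only [w6_wI, orthonormal_iff_ite.1 be.orthonormal]
    push_cast
    ring
  unfold weylSq
  simp only [h, ← Finset.mul_sum]
  have h2 : ∑ a : Fin 6, ∑ b : Fin 6, ∑ p : Fin 6, ∑ q : Fin 6,
      ((3 * ((if a = p then 1 else 0) * (if b = q then 1 else 0) -
      (if a = q then 1 else 0) * (if b = p then 1 else 0)) - 5 * (wI a p * wI b q - wI a q * wI b p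
        + 2 * (wI a b * wI p q))) ^ 2 : ℤ) = 5760 := by decide +kernel
  have h3 : ∑ a : Fin 6, ∑ b : Fin 6, ∑ p : Fin 6, ∑ q : Fin 6,
      (((3 * ((if a = p then 1 else 0) * (if b = q then 1 else 0) -
      (if a = q then 1 else 0) * (if b = p then 1 else 0)) - 5 * (wI a p * wI b q - wI a q * wI b p
        + 2 * (wI a b * wI p q))) ^ 2 : ℤ) : ℝ) = 5760 := by exact_mod_cast h2
  rw [h3]
  ring

/-- the pointwise bound is attained -/
theorem sharp2 {c : ℝ} (hc : 0 < c) (k : ℝ) : gbc be (Rex (k * c) ((5 * k - 5) * c)) =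
    roundGB c * (1 + (53 - 44 * k) / (1080 * c ^ 2) *
      weylSq be (Rex (k * c) ((5 * k - 5) * c)) c) := by
  rw [sharp, weylSq_Rex]
  unfold pol
  field_simp
  ring

end Pool.Agent.Q188.Ein
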